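import Mathlib

/-!
The analytic heart of the instability proof for the doubly randomised ALOHA protocol: with
`h(x) = x^{7/8} - 1` and `ε(x) = x^{-3/8}/2` the fluctuations of the control parameter `S`
dominate its drift.
-/

namespace Pool.Agent.Q296.Aloha

open Filter Topology

noncomputable section

/-- probability of exactly one success among `N` trials with success probability `p` -/
def one (N : ℕ) (p : ℝ) : ℝ := N * p * (1 - p) ^ (N - 1)

lemma one_nonneg (N : ℕ) (p : ℝ) (h0 : 0 ≤ p) (h1 : p ≤ 1) : 0 ≤ one N p := by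
  unfold one
  have : 0 ≤ (1 - p) ^ (N - 1) := pow_nonneg (by linarith) _
  positivity

lemma one_le_mul (N : ℕ) (p : ℝ) (h0 : 0 ≤ p) (h1 : p ≤ 1) : one N p ≤ N * p := by
  unfold one
  have h2 : (1 - p) ^ (N - 1) ≤ 1 := pow_le_one₀ (by linarith) (by linarith)
  have h3 : 0 ≤ (N : ℝ) * p := by positivity
  nlinarith

/-- upper bound by an exponential -/
lemma one_le_exp (N : ℕ) (hN : 1 ≤ N) (p t : ℝ) (h1 : p ≤ 1)
    (ht : t ≤ p * ((N : ℝ) - 1)) : one N p ≤ N * Real.exp (-t) := by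
  unfold one
  have h2 : (1 - p) ^ (N - 1) ≤ Real.exp (-t) := by
    have h3 : 1 - p ≤ Real.exp (-p) := by
      have := Real.add_one_le_exp (-p)
      linarith
    calc (1 - p) ^ (N - 1) ≤ (Real.exp (-p)) ^ (N - 1) := pow_le_pow_left₀ (by linarith) h3 _
      _ = Real.exp (-(p * ((N : ℝ) - 1))) := by
          rw [← Real.exp_nat_mul]
          congr 1
          rw [Nat.cast_sub hN]
          push_cast
          ring
      _ ≤ Real.exp (-t) := Real.exp_le_exp.2 (by linarith)
  have h4 : 0 ≤ (1 - p) ^ (N - 1) := pow_nonneg (by linarith) _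
  calc (N : ℝ) * p * (1 - p) ^ (N - 1) ≤ (N : ℝ) * 1 * (1 - p) ^ (N - 1) := by
        gcongr
    _ ≤ N * Real.exp (-t) := by
        rw [mul_one]
        gcongr

/-- ratio of the two success probabilities -/
lemma ratio (N : ℕ) (hN : 1 ≤ N) (S ε t : ℝ) (hS : 1 < S) (hε0 : 0 ≤ ε) (hε1 : ε ≤ 1)
    (ht : ε * ((N : ℝ) - 1) / (S - 1) ≤ t) :
    one N ((1 - ε) / S) ≤ one N (1 / S) * ((1 - ε) * Real.exp t) := by
  unfold one
  have hS0 : 0 < S := by linarith
  have hS1 : 0 < S - 1 := by linarith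
  have e1 : 1 - (1 - ε) / S = (1 - 1 / S) * (1 + ε / (S - 1)) := by
    field_simp
    ring
  have h2 : (1 + ε / (S - 1)) ^ (N - 1) ≤ Real.exp t := by
    have h3 : 1 + ε / (S - 1) ≤ Real.exp (ε / (S - 1)) := by
      have := Real.add_one_le_exp (ε / (S - 1))
      linarith
    have h4 : 0 ≤ ε / (S - 1) := by positivity
    calc (1 + ε / (S - 1)) ^ (N - 1) ≤ (Real.exp (ε / (S - 1))) ^ (N - 1) :=
          pow_le_pow_left₀ (by linarith) h3 _
      _ = Real.exp (ε * ((N : ℝ) - 1) / (S - 1)) := by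
          rw [← Real.exp_nat_mul]
          congr 1
          rw [Nat.cast_sub hN]
          push_cast
          ring
      _ ≤ Real.exp t := Real.exp_le_exp.2 ht
  have h5 : 0 ≤ 1 - 1 / S := by
    rw [sub_nonneg, div_le_one hS0]
    exact hS.le
  have h6 : 0 ≤ (1 - 1 / S) ^ (N - 1) := pow_nonneg h5 _
  rw [e1, mul_pow]
  have h7 : 0 ≤ 1 - ε := by linarith
  calc (N : ℝ) * ((1 - ε) / S) * ((1 - 1 / S) ^ (N - 1) * (1 + ε / (S - 1)) ^ (N - 1))
      ≤ (N : ℝ) * ((1 - ε) / S) * ((1 - 1 / S) ^ (N - 1) * Real.exp t) := by gcongr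
    _ = N * (1 / S) * (1 - 1 / S) ^ (N - 1) * ((1 - ε) * Real.exp t) := by
        field_simp

/-- the two jumps together -/
lemma jumps (q0 q1 X h η : ℝ) (hq1 : 0 ≤ q1) (hη : 0 ≤ η) (hq : q0 ≤ q1 * (1 + η)) (hX : 0 < X)
    (h0 : 0 ≤ h) (h1 : h < X) (hηX : η * X ≤ h) :
    q0 * (1 / X - 1 / (X + h)) + q1 * (1 / X - 1 / (X - h)) ≤ - (q1 * h ^ 2 / X ^ 3) := by
  have hXh : 0 < X - h := by linarith
  have hXh' : 0 < X + h := by linarith
  have e1 : 1 / X - 1 / (X + h) = h / (X * (X + h)) := by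
    field_simp
    ring
  have e2 : 1 / X - 1 / (X - h) = - (h / (X * (X - h))) := by
    field_simp
    ring
  rw [e1, e2]
  have h2 : q0 * (h / (X * (X + h))) ≤ q1 * (1 + η) * (h / (X * (X + h))) :=
    mul_le_mul_of_nonneg_right hq (by positivity)
  have h3 : q1 * (1 + η) * (h / (X * (X + h))) + q1 * -(h / (X * (X - h))) =
      - (q1 * h * (2 * h - η * (X - h)) / (X * (X + h) * (X - h))) := by
    field_simp
    ring
  have h4 : q1 * h ^ 2 / X ^ 3 ≤ q1 * h * (2 * h - η * (X - h)) / (X * (X + h) * (X - h)) := by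
    have h5 : h ≤ 2 * h - η * (X - h) := by nlinarith
    have h6 : X * (X + h) * (X - h) ≤ X ^ 3 := by
      have : X * (X + h) * (X - h) = X ^ 3 - X * h ^ 2 := by ring
      rw [this]
      have : 0 ≤ X * h ^ 2 := by positivity
      linarith
    have h7 : 0 < X * (X + h) * (X - h) := by positivity
    have h8 : q1 * h ^ 2 ≤ q1 * h * (2 * h - η * (X - h)) := by
      have : q1 * h ^ 2 = q1 * h * h := by ring
      rw [this]
      gcongr
    exact div_le_div₀ (le_trans (by positivity) h8) h8 h7 h6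
  linarith

/-- eventually smallness of a stretched exponential -/
lemma small_exp (c : ℝ) (hc : 0 < c) :
    ∀ᶠ w : ℝ in atTop, w ^ 12 * Real.exp (-(√w / 12)) ≤ c := by
  have h1 : Tendsto (fun x : ℝ => x ^ 24 * Real.exp (-x)) atTop (𝓝 0) :=
    Real.tendsto_pow_mul_exp_neg_atTop_nhds_zero 24
  have h2 : Tendsto (fun w : ℝ => √w / 12) atTop atTop :=
    (Real.tendsto_sqrt_atTop).atTop_div_const (by norm_num)
  have h3 := (h1.comp h2).const_mul ((12 : ℝ) ^ 24)
  rw [mul_zero] at h3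
  have h4 := h3.eventually (eventually_le_nhds hc)
  filter_upwards [h4, eventually_ge_atTop 0] with w hw hw0
  have e : (12 : ℝ) ^ 24 * (((fun x : ℝ => x ^ 24 * Real.exp (-x)) ∘ fun w => √w / 12) w) =
      w ^ 12 * Real.exp (-(√w / 12)) := by
    simp only [Function.comp]
    have : (√w / 12) ^ 24 = w ^ 12 / 12 ^ 24 := by
      rw [div_pow]
      congr 1
      rw [show (24 : ℕ) = 2 * 12 by norm_num, pow_mul, Real.sq_sqrt hw0]
    rw [this]
    field_simp
  rw [e] at hw
  exact hw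

/-- The key inequality.  Here `y = S^{1/8}` and `w = N^{1/8}`. -/
lemma star_core (c : ℝ) (hc : 0 < c) : ∀ᶠ w : ℝ in atTop, ∀ y : ℝ, 1 ≤ y → ∀ N : ℕ,
    (N : ℝ) = w ^ 8 →
    (one N ((1 - 1 / (2 * y ^ 3)) / y ^ 8) + one N (1 / y ^ 8)) / w ^ 12 +
      (one N ((1 - 1 / (2 * y ^ 3)) / y ^ 8) *
          (1 / (y ^ 8 + N) - 1 / (y ^ 8 + N + (y ^ 7 - 1))) +
        one N (1 / y ^ 8) * (1 / (y ^ 8 + N) - 1 / (y ^ 8 + N - (y ^ 7 - 1)))) / 2 ≤
      c / w ^ 12 := by
  have hc3 : 0 < c / 3 := by positivity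
  filter_upwards [small_exp (c / 3) hc3, eventually_ge_atTop (2 : ℝ),
    (tendsto_pow_atTop (α := ℝ) (n := 4) (by norm_num)).eventually_ge_atTop (192 ^ 9),
    (tendsto_pow_atTop (α := ℝ) (n := 8) (by norm_num)).eventually_ge_atTop
      (128 ^ 4 / (c / 2) ^ 5)] with w hexp hw2 hw4 hw8 y hy N hN
  have hw0 : 0 < w := by linarith
  have hy0 : 0 < y := by linarith
  have hN1 : 1 ≤ N := by
    have : (1 : ℝ) ≤ N := by
      rw [hN]
      exact one_le_pow₀ (by linarith)
    exact_mod_cast this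
  have hN2 : (2 : ℝ) ≤ N := by
    rw [hN]
    calc (2 : ℝ) ≤ 2 ^ 8 := by norm_num
      _ ≤ w ^ 8 := pow_le_pow_left₀ (by norm_num) hw2 8
  set S := y ^ 8 with hS
  set ε := 1 / (2 * y ^ 3) with hε
  set q0 := one N ((1 - ε) / S) with hq0
  set q1 := one N (1 / S) with hq1
  have hS1 : 1 ≤ S := one_le_pow₀ hy
  have hy3 : 1 ≤ y ^ 3 := one_le_pow₀ hy
  have hy7 : 1 ≤ y ^ 7 := one_le_pow₀ hy
  have hε0 : 0 < ε := by positivity
  have hε1 : ε ≤ 1 / 2 := by
    rw [hε]
    apply one_div_le_one_div_of_le (by norm_num)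
    linarith
  have hp1 : 1 / S ≤ 1 := by
    rw [div_le_one (by linarith)]
    exact hS1
  have hp1' : 0 ≤ 1 / S := by positivity
  have hp0' : 0 ≤ (1 - ε) / S := by
    apply div_nonneg <;> linarith
  have hp0 : (1 - ε) / S ≤ 1 := by
    rw [div_le_one (by linarith)]
    linarith
  have hq0n : 0 ≤ q0 := one_nonneg _ _ hp0' hp0
  have hq1n : 0 ≤ q1 := one_nonneg _ _ hp1' hp1
  set h := y ^ 7 - 1 with hh
  have hh0 : 0 ≤ h := by linarith
  have hhS : h < S := by
    have : y ^ 7 ≤ y ^ 8 := pow_le_pow_right₀ hy (by norm_num)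
    rw [hh, hS]
    linarith
  set X := S + (N : ℝ) with hX
  have hX0 : 0 < X := by linarith
  have hhX : h < X := by linarith
  have hXh : 0 < X - h := by linarith
  have hw12 : 0 < w ^ 12 := by positivity
  by_cases hA : y ^ 9 < 3 * w ^ 8
  · -- `S` much smaller than `N`: no successes
    have ht : √w / 12 ≤ (N : ℝ) / (4 * S) := by
      rw [div_le_div_iff₀ (by norm_num) (by positivity)]
      have h1 : √w * S ≤ 3 * w ^ 8 := by
        have hs1 : 1 ≤ √w := by
          rw [Real.one_le_sqrt]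
          linarith
        have hsq : √w ^ 2 = w := Real.sq_sqrt hw0.le
        by_cases hyw : y ≤ √w
        · have h2 : y ^ 8 ≤ √w ^ 8 := pow_le_pow_left₀ hy0.le hyw 8
          have h3 : √w ^ 9 ≤ √w ^ 16 := pow_le_pow_right₀ hs1 (by norm_num)
          have h4 : √w ^ 16 = w ^ 8 := by
            rw [show (16 : ℕ) = 2 * 8 by norm_num, pow_mul, hsq]
          calc √w * S ≤ √w * √w ^ 8 := by gcongr
            _ = √w ^ 9 := by ring
            _ ≤ √w ^ 16 := h3
            _ = w ^ 8 := h4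
            _ ≤ 3 * w ^ 8 := by
              have : 0 < w ^ 8 := by positivity
              linarith
        · push Not at hyw
          calc √w * S ≤ y * S := by gcongr
            _ = y ^ 9 := by rw [hS]; ring
            _ ≤ 3 * w ^ 8 := hA.le
      rw [hN]
      linarith
    have hsm : ∀ p : ℝ, 1 / (2 * S) ≤ p → p ≤ 1 → one N p ≤ c / 3 / w ^ 4 := by
      intro p hp hp'
      have h1 : one N p ≤ N * Real.exp (-(√w / 12)) := by
        apply one_le_exp N hN1 p _ hp'
        refine ht.trans ?_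
        have h2 : (N : ℝ) / 2 ≤ (N : ℝ) - 1 := by linarith
        calc (N : ℝ) / (4 * S) = 1 / (2 * S) * ((N : ℝ) / 2) := by
              field_simp
              norm_num
          _ ≤ p * ((N : ℝ) - 1) := mul_le_mul hp h2 (by positivity) (le_trans (by positivity) hp)
      refine h1.trans ?_
      rw [le_div_iff₀ (by positivity), hN]
      calc w ^ 8 * Real.exp (-(√w / 12)) * w ^ 4 = w ^ 12 * Real.exp (-(√w / 12)) := by ring
        _ ≤ c / 3 := hexp
    have hs0 : q0 ≤ c / 3 / w ^ 4 := by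
      apply hsm _ _ hp0
      rw [div_le_div_iff₀ (by positivity) (by positivity)]
      nlinarith
    have hs1 : q1 ≤ c / 3 / w ^ 4 := by
      apply hsm _ _ hp1
      apply one_div_le_one_div_of_le (by positivity)
      linarith
    have hj0 : q0 * (1 / X - 1 / (X + h)) ≤ c / 3 / w ^ 12 := by
      have h1 : 1 / X - 1 / (X + h) ≤ 1 / w ^ 8 := by
        have h2 : 0 < 1 / (X + h) := by positivity
        have h3 : 1 / X ≤ 1 / w ^ 8 := by
          apply one_div_le_one_div_of_le (by positivity)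
          rw [← hN]
          linarith
        linarith
      have h4 : 0 ≤ 1 / X - 1 / (X + h) := by
        rw [sub_nonneg]
        apply one_div_le_one_div_of_le hX0
        linarith
      calc q0 * (1 / X - 1 / (X + h)) ≤ c / 3 / w ^ 4 * (1 / w ^ 8) :=
            mul_le_mul hs0 h1 h4 (by positivity)
        _ = c / 3 / w ^ 12 := by
            field_simp
    have hj1 : q1 * (1 / X - 1 / (X - h)) ≤ 0 := by
      apply mul_nonpos_of_nonneg_of_nonpos hq1n
      rw [sub_nonpos]
      apply one_div_le_one_div_of_le hXh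
      linarith
    have hsum : (q0 + q1) / w ^ 12 ≤ 2 / 3 * c / w ^ 16 := by
      rw [div_le_div_iff₀ hw12 (by positivity)]
      have h1 : q0 + q1 ≤ 2 / 3 * c / w ^ 4 := by
        have : 2 / 3 * c / w ^ 4 = c / 3 / w ^ 4 + c / 3 / w ^ 4 := by ring
        linarith
      calc (q0 + q1) * w ^ 16 ≤ 2 / 3 * c / w ^ 4 * w ^ 16 := by gcongr
        _ = 2 / 3 * c * w ^ 12 := by field_simp
    have hsum2 : 2 / 3 * c / w ^ 16 ≤ 1 / 3 * c / w ^ 12 := by
      rw [div_le_div_iff₀ (by positivity) hw12]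
      have h1 : (2 : ℝ) ≤ w ^ 4 := by
        calc (2 : ℝ) ≤ 2 ^ 4 := by norm_num
          _ ≤ w ^ 4 := pow_le_pow_left₀ (by norm_num) hw2 4
      have h2 : 1 / 3 * c * w ^ 16 = 1 / 3 * c * w ^ 12 * w ^ 4 := by ring
      rw [h2]
      have h3 : 0 ≤ 1 / 3 * c * w ^ 12 := by positivity
      nlinarith
    have e : c / w ^ 12 = 1 / 3 * c / w ^ 12 + c / 3 / w ^ 12 + c / 3 / w ^ 12 := by ring
    rw [e]
    have h5 : 0 ≤ c / 3 / w ^ 12 := by positivity
    linarith
  · push Not at hA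
    have hw8' : (192 : ℝ) ^ 9 ≤ w ^ 4 := hw4
    -- `y` is at least 2
    have hyw9 : w ^ 8 ≤ y ^ 9 := by
      have : 0 < w ^ 8 := by positivity
      linarith
    have hy2 : 2 ≤ y := by
      by_contra hcon
      push Not at hcon
      have h1 : y ^ 9 ≤ 2 ^ 9 := pow_le_pow_left₀ hy0.le hcon.le 9
      have h2 : (192 : ℝ) ^ 9 ≤ w ^ 8 := by
        refine hw4.trans ?_
        exact pow_le_pow_right₀ (by linarith) (by norm_num)
      have h3 : (192 : ℝ) ^ 9 ≤ 2 ^ 9 := h2.trans (hyw9.trans h1)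
      norm_num at h3
    have hy7' : (128 : ℝ) ≤ y ^ 7 := by
      calc (128 : ℝ) = 2 ^ 7 := by norm_num
        _ ≤ y ^ 7 := pow_le_pow_left₀ (by norm_num) hy2 7
    have hy8' : (256 : ℝ) ≤ y ^ 8 := by
      calc (256 : ℝ) = 2 ^ 8 := by norm_num
        _ ≤ y ^ 8 := pow_le_pow_left₀ (by norm_num) hy2 8
    have hh2 : y ^ 7 / 2 ≤ h := by linarith
    have hhsq : y ^ 14 / 4 ≤ h ^ 2 := by
      calc y ^ 14 / 4 = (y ^ 7 / 2) ^ 2 := by ring
        _ ≤ h ^ 2 := pow_le_pow_left₀ (by positivity) hh2 2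
    have hSgt : 1 < S := by linarith
    by_cases hB : y ≤ w
    · -- intermediate region
      have hSN : S ≤ N := by
        rw [hN]
        exact pow_le_pow_left₀ hy0.le hB 8
      have ht1 : ε * ((N : ℝ) - 1) / (S - 1) ≤ w ^ 8 / y ^ 11 := by
        rw [div_le_div_iff₀ (by linarith) (by positivity)]
        have h1 : S / 2 ≤ S - 1 := by linarith
        have h2 : ε * ((N : ℝ) - 1) ≤ ε * w ^ 8 := by
          rw [← hN]
          apply mul_le_mul_of_nonneg_left _ hε0.le
          linarith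
        calc ε * ((N : ℝ) - 1) * y ^ 11 ≤ ε * w ^ 8 * y ^ 11 := by gcongr
          _ = w ^ 8 * (S / 2) := by
              rw [hε, hS]
              field_simp
          _ ≤ w ^ 8 * (S - 1) := by gcongr
      set t := w ^ 8 / y ^ 11 with ht
      have ht0 : 0 ≤ t := by positivity
      have htle : t ≤ 1 / 12 := by
        rw [ht, div_le_div_iff₀ (by positivity) (by norm_num)]
        have h1 : (4 : ℝ) ≤ y ^ 2 := by nlinarith
        have h2 : y ^ 11 = y ^ 9 * y ^ 2 := by ring
        rw [h2]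
        have h3 : 0 < w ^ 8 := by positivity
        nlinarith
      have hexp2 : Real.exp t ≤ 1 + 2 * t := by
        have h1 := Real.abs_exp_sub_one_sub_id_le (x := t) (by
          rw [abs_of_nonneg ht0]; linarith)
        have h2 := (abs_le.1 h1).2
        nlinarith
      have hrat := ratio N hN1 S ε t hSgt hε0.le (by linarith) ht1
      have hq : q0 ≤ q1 * (1 + 2 * t) := by
        refine hrat.trans ?_
        apply mul_le_mul_of_nonneg_left _ hq1n
        calc (1 - ε) * Real.exp t ≤ 1 * Real.exp t := by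
              apply mul_le_mul_of_nonneg_right _ (Real.exp_pos _).le
              linarith
          _ ≤ 1 + 2 * t := by linarith
      have hX2 : X ≤ 2 * w ^ 8 := by
        rw [hX]
        linarith
      have hηX : 2 * t * X ≤ h := by
        calc 2 * t * X ≤ 2 * t * (2 * w ^ 8) := by gcongr
          _ = 4 * (w ^ 8) ^ 2 / y ^ 11 := by
              rw [ht]; ring
          _ ≤ 4 * (y ^ 9 / 3) ^ 2 / y ^ 11 := by
              gcongr
              linarith
          _ = 4 / 9 * y ^ 7 := by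
              field_simp
              norm_num
          _ ≤ h := by linarith
      have hj := jumps q0 q1 X h (2 * t) hq1n (by linarith) hq hX0 hh0 hhX hηX
      have hgain : 6 * q1 / w ^ 12 ≤ q1 * h ^ 2 / X ^ 3 := by
        have hX3 : X ^ 3 ≤ 8 * w ^ 24 := by
          calc X ^ 3 ≤ (2 * w ^ 8) ^ 3 := pow_le_pow_left₀ hX0.le hX2 3
            _ = 8 * w ^ 24 := by ring
        have hy14 : 192 * w ^ 12 ≤ y ^ 14 := by
          apply le_of_pow_le_pow_left₀ (n := 9) (by norm_num) (by positivity)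
          have h3 : 0 ≤ w ^ 108 := by positivity
          calc (192 * w ^ 12) ^ 9 = 192 ^ 9 * w ^ 108 := by ring
            _ ≤ w ^ 4 * w ^ 108 := mul_le_mul_of_nonneg_right hw4 h3
            _ = (w ^ 8) ^ 14 := by ring
            _ ≤ (y ^ 9) ^ 14 := pow_le_pow_left₀ (by positivity) hyw9 14
            _ = (y ^ 14) ^ 9 := by ring
        rw [div_le_div_iff₀ hw12 (by positivity)]
        calc 6 * q1 * X ^ 3 ≤ 6 * q1 * (8 * w ^ 24) := by gcongr
          _ = q1 * ((192 * w ^ 12) / 4) * w ^ 12 := by ring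
          _ ≤ q1 * (y ^ 14 / 4) * w ^ 12 := by gcongr
          _ ≤ q1 * h ^ 2 * w ^ 12 := by gcongr
      have hq3 : q0 + q1 ≤ 3 * q1 := by nlinarith
      have h6 : (q0 + q1) / w ^ 12 ≤ 3 * q1 / w ^ 12 := by gcongr
      have h7 : 6 * q1 / w ^ 12 = 2 * (3 * q1 / w ^ 12) := by ring
      have h8 : 0 ≤ c / w ^ 12 := by positivity
      linarith
    · -- `S` larger than `N`
      push Not at hB
      have hSN : (N : ℝ) ≤ S := by
        rw [hN]
        exact pow_le_pow_left₀ hw0.le hB.le 8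
      have ht1 : ε * ((N : ℝ) - 1) / (S - 1) ≤ ε := by
        rw [div_le_iff₀ (by linarith)]
        apply mul_le_mul_of_nonneg_left _ hε0.le
        linarith
      have hrat := ratio N hN1 S ε ε hSgt hε0.le (by linarith) ht1
      have hq : q0 ≤ q1 * (1 + 0) := by
        refine hrat.trans ?_
        apply mul_le_mul_of_nonneg_left _ hq1n
        have h1 : 1 - ε ≤ Real.exp (-ε) := by
          have := Real.add_one_le_exp (-ε)
          linarith
        calc (1 - ε) * Real.exp ε ≤ Real.exp (-ε) * Real.exp ε := by gcongr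
          _ = 1 + 0 := by rw [← Real.exp_add]; simp
      have hj := jumps q0 q1 X h 0 hq1n le_rfl hq hX0 hh0 hhX (by linarith)
      have hX3 : X ^ 3 ≤ 8 * y ^ 24 := by
        calc X ^ 3 ≤ (2 * y ^ 8) ^ 3 := pow_le_pow_left₀ hX0.le (by linarith) 3
          _ = 8 * y ^ 24 := by ring
      have hgain : q1 / (32 * y ^ 10) ≤ q1 * h ^ 2 / X ^ 3 := by
        rw [div_le_div_iff₀ (by positivity) (by positivity)]
        calc q1 * X ^ 3 ≤ q1 * (8 * y ^ 24) := by gcongr
          _ = q1 * (y ^ 14 / 4) * (32 * y ^ 10) := by ring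
          _ ≤ q1 * h ^ 2 * (32 * y ^ 10) := by gcongr
      have h6 : (q0 + q1) / w ^ 12 ≤ 2 * q1 / w ^ 12 := by
        gcongr
        linarith
      by_cases hC : 128 * y ^ 10 ≤ w ^ 12
      · have h7 : 2 * q1 / w ^ 12 ≤ q1 / (32 * y ^ 10) / 2 := by
          calc 2 * q1 / w ^ 12 ≤ 2 * q1 / (128 * y ^ 10) := by gcongr
            _ = q1 / (32 * y ^ 10) / 2 := by ring
        have h8 : 0 ≤ c / w ^ 12 := by positivity
        linarith
      · push Not at hC
        have hsm : q1 ≤ c / 2 := by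
          have h1 : q1 ≤ w ^ 8 / y ^ 8 := by
            refine (one_le_mul N (1 / S) hp1' hp1).trans ?_
            rw [hN, hS]
            apply le_of_eq
            ring
          refine h1.trans ?_
          apply le_of_pow_le_pow_left₀ (n := 5) (by norm_num) (by positivity)
          rw [div_le_iff₀ (by positivity)] at hw8
          rw [div_pow, div_le_iff₀ (by positivity)]
          have h2 : (w ^ 12) ^ 4 ≤ (128 * y ^ 10) ^ 4 := pow_le_pow_left₀ hw12.le hC.le 4
          have h3 : (w ^ 8) ^ 5 * w ^ 8 ≤ 128 ^ 4 * (y ^ 8) ^ 5 := by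
            calc (w ^ 8) ^ 5 * w ^ 8 = (w ^ 12) ^ 4 := by ring
              _ ≤ (128 * y ^ 10) ^ 4 := h2
              _ = 128 ^ 4 * (y ^ 8) ^ 5 := by ring
          have h4 : 128 ^ 4 * (y ^ 8) ^ 5 ≤ w ^ 8 * (c / 2) ^ 5 * (y ^ 8) ^ 5 := by gcongr
          have h5 : (w ^ 8) ^ 5 * w ^ 8 ≤ (c / 2) ^ 5 * (y ^ 8) ^ 5 * w ^ 8 := by
            calc (w ^ 8) ^ 5 * w ^ 8 ≤ w ^ 8 * (c / 2) ^ 5 * (y ^ 8) ^ 5 := h3.trans h4
              _ = (c / 2) ^ 5 * (y ^ 8) ^ 5 * w ^ 8 := by ring
          exact le_of_mul_le_mul_right h5 (by positivity)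
        have h7 : 2 * q1 / w ^ 12 ≤ c / w ^ 12 := by
          gcongr
          linarith
        have h8 : 0 ≤ q1 * h ^ 2 / X ^ 3 := by positivity
        linarith

end

end Pool.Agent.Q296.Aloha
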