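import Mathlib
import Pool.Agent.Q296.Aloha.Star

/-!
The one-step inequality behind the supermartingale for the ALOHA protocol.
-/

namespace Pool.Agent.Q296.Aloha

open Filter Topology MeasureTheory ProbabilityTheory
open scoped ENNReal

noncomputable section

/-- the bound after the departures and before the arrivals -/
def bd (π l : ℝ) (M S : ℝ) : ℝ :=
  (1 / √(M + 1) - 1 / (S + M)) + (1 - π) * (1 / √M - 1 / √(M + 1)) + l / M ^ 2

lemma half_le (n S : ℝ) (hn : 1 ≤ n) (hS : 1 ≤ S) :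
    1 / (2 * √n) ≤ 1 / √n - 1 / (S + n) := by
  have h1 : 0 < √n := Real.sqrt_pos.2 (by linarith)
  have h2 : √n ^ 2 = n := Real.sq_sqrt (by linarith)
  have h3 : 2 * √n ≤ S + n := by nlinarith [sq_nonneg (√n - 1)]
  have h4 : 1 / (S + n) ≤ 1 / (2 * √n) := one_div_le_one_div_of_le (by positivity) h3
  have h5 : 1 / √n = 1 / (2 * √n) + 1 / (2 * √n) := by
    field_simp
    norm_num
  linarith

lemma first_nonneg (M S : ℝ) (hM : 1 ≤ M) (hS : 1 ≤ S) :
    0 ≤ 1 / √(M + 1) - 1 / (S + M) := by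
  rw [sub_nonneg]
  have h1 : 0 < √(M + 1) := Real.sqrt_pos.2 (by linarith)
  apply one_div_le_one_div_of_le h1
  have h2 : √(M + 1) ^ 2 = M + 1 := Real.sq_sqrt (by linarith)
  nlinarith [sq_nonneg (√(M + 1) - 1), Real.one_le_sqrt.2 (show (1 : ℝ) ≤ M + 1 by linarith)]

lemma second_nonneg (M : ℝ) (hM : 1 ≤ M) : 0 ≤ 1 / √M - 1 / √(M + 1) := by
  rw [sub_nonneg]
  apply one_div_le_one_div_of_le (Real.sqrt_pos.2 (by linarith))
  exact Real.sqrt_le_sqrt (by linarith)

lemma bd_nonneg (π l M S : ℝ) (hπ : π ≤ 1) (hl : 0 ≤ l) (hM : 1 ≤ M) (hS : 1 ≤ S) :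
    0 ≤ bd π l M S := by
  unfold bd
  have h1 := first_nonneg M S hM hS
  have h2 := mul_nonneg (sub_nonneg.2 hπ) (second_nonneg M hM)
  have h3 : 0 ≤ l / M ^ 2 := by positivity
  linarith

/-! ### the one-step inequality -/

lemma gap_lower (n : ℝ) (hn : 1 ≤ n) : 1 / (4 * (n * √n)) ≤ 1 / √n - 1 / √(n + 1) := by
  have h1 : 0 < √n := Real.sqrt_pos.2 (by linarith)
  have h2 : 0 < √(n + 1) := Real.sqrt_pos.2 (by linarith)
  have h3 : √n ^ 2 = n := Real.sq_sqrt (by linarith)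
  have h4 : √(n + 1) ^ 2 = n + 1 := Real.sq_sqrt (by linarith)
  have e : 1 / √n - 1 / √(n + 1) = 1 / (√n * √(n + 1) * (√n + √(n + 1))) := by
    rw [div_sub_div _ _ h1.ne' h2.ne', div_eq_div_iff (by positivity) (by positivity)]
    have : (√(n + 1) - √n) * (√n + √(n + 1)) = 1 := by nlinarith
    linear_combination (√n * √(n + 1)) * this
  rw [e]
  apply one_div_le_one_div_of_le (by positivity)
  have h5 : √(n + 1) ≤ 3 / 2 * √n := by
    apply Real.sqrt_le_iff.2
    refine ⟨by positivity, ?_⟩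
    rw [mul_pow, h3]
    linarith
  calc √n * √(n + 1) * (√n + √(n + 1)) ≤ √n * (3 / 2 * √n) * (√n + 3 / 2 * √n) := by gcongr
    _ = 15 / 4 * (√n ^ 2 * √n) := by ring
    _ ≤ 4 * (n * √n) := by
        rw [h3]
        have : 0 < n * √n := by positivity
        linarith

lemma gap_upper (n : ℝ) (hn : 2 ≤ n) : 1 / √(n - 1) - 1 / √n ≤ 1 / (n * √n) := by
  have h1 : 0 < √n := Real.sqrt_pos.2 (by linarith)
  have h2 : 0 < √(n - 1) := Real.sqrt_pos.2 (by linarith)
  have h3 : √n ^ 2 = n := Real.sq_sqrt (by linarith)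
  have h4 : √(n - 1) ^ 2 = n - 1 := Real.sq_sqrt (by linarith)
  have e : 1 / √(n - 1) - 1 / √n = 1 / (√n * √(n - 1) * (√n + √(n - 1))) := by
    rw [div_sub_div _ _ h2.ne' h1.ne', div_eq_div_iff (by positivity) (by positivity)]
    have : (√n - √(n - 1)) * (√n + √(n - 1)) = 1 := by nlinarith
    linear_combination (√n * √(n - 1)) * this
  rw [e]
  apply one_div_le_one_div_of_le (by positivity)
  have h5 : 7 / 10 * √n ≤ √(n - 1) := by
    apply Real.le_sqrt_of_sq_le
    rw [mul_pow, h3]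
    linarith
  calc n * √n = √n ^ 2 * √n := by rw [h3]
    _ ≤ √n * (7 / 10 * √n) * (√n + 7 / 10 * √n) := by
        have : 0 < √n ^ 2 * √n := by positivity
        nlinarith
    _ ≤ √n * √(n - 1) * (√n + √(n - 1)) := by gcongr

lemma one_le_one (N : ℕ) (p : ℝ) (h0 : 0 ≤ p) (h1 : p ≤ 1) : one N p ≤ 1 := by
  have h2 : (binomial N ⟨p, h0, h1⟩) {1} ≤ 1 := prob_le_one
  have hsingle : (binomial N ⟨p, h0, h1⟩) {1} = ENNReal.ofReal (one N p) := by
    unfold one
    rw [binomial_singleton]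
    simp
  rw [hsingle, ← ENNReal.ofReal_one] at h2
  exact (ENNReal.ofReal_le_ofReal_iff (by norm_num)).1 h2

/-- The one-step inequality, in terms of `w = N^{1/8}` and `y = S^{1/8}`. -/
lemma drift (C l π : ℝ) (hC : 0 < C) (hl : 0 ≤ l) (hπ0 : 0 < π) (hπ1 : π ≤ 1) :
    ∀ᶠ w : ℝ in atTop, ∀ y : ℝ, 1 ≤ y → ∀ N : ℕ, (N : ℝ) = w ^ 8 →
    ∀ q0 q1 : ℝ, q0 = one N ((1 - 1 / (2 * y ^ 3)) / y ^ 8) → q1 = one N (1 / y ^ 8) →
      ((q0 * bd π l (N - 1) (y ^ 8 + (y ^ 7 - 1)) + (1 - q0) * bd π l N (y ^ 8 + C)) +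
        (q1 * bd π l (N - 1) (y ^ 8 - (y ^ 7 - 1)) + (1 - q1) * bd π l N (y ^ 8 + C))) / 2 ≤
      1 / √(N : ℝ) - 1 / (y ^ 8 + N) := by
  filter_upwards [star_core (π / 8) (by positivity), eventually_ge_atTop (2 : ℝ),
    (tendsto_pow_atTop (α := ℝ) (n := 4) (by norm_num)).eventually_ge_atTop
      (8 * (C + 5 * l) / π)] with w hstar hw2 hw4 y hy N hN q0 q1 hq0 hq1
  have hw0 : 0 < w := by linarith
  have hy0 : 0 < y := by linarith
  have hst := hstar y hy N hN
  rw [← hq0, ← hq1] at hst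
  have hy3 : 1 ≤ y ^ 3 := one_le_pow₀ hy
  have hS1 : 1 ≤ y ^ 8 := one_le_pow₀ hy
  have hp0 : 0 ≤ (1 - 1 / (2 * y ^ 3)) / y ^ 8 := by
    apply div_nonneg _ (by linarith)
    rw [sub_nonneg, div_le_one (by positivity)]
    linarith
  have hp0' : (1 - 1 / (2 * y ^ 3)) / y ^ 8 ≤ 1 := by
    rw [div_le_one (by linarith)]
    have : 0 < 1 / (2 * y ^ 3) := by positivity
    linarith
  have hp1 : 0 ≤ 1 / y ^ 8 := by positivity
  have hp1' : 1 / y ^ 8 ≤ 1 := by
    rw [div_le_one (by linarith)]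
    exact hS1
  have hq0n : 0 ≤ q0 := by rw [hq0]; exact one_nonneg _ _ hp0 hp0'
  have hq1n : 0 ≤ q1 := by rw [hq1]; exact one_nonneg _ _ hp1 hp1'
  have hq01 : q0 ≤ 1 := by rw [hq0]; exact one_le_one _ _ hp0 hp0'
  have hq11 : q1 ≤ 1 := by rw [hq1]; exact one_le_one _ _ hp1 hp1'
  clear hstar
  have hy78 : y ^ 7 ≤ y ^ 8 := pow_le_pow_right₀ hy (by norm_num)
  have hy7 : 1 ≤ y ^ 7 := one_le_pow₀ hy
  set S := y ^ 8 with hS
  set h := y ^ 7 - 1 with hh
  set n : ℝ := (N : ℝ) with hn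
  have hn2 : (2 : ℝ) ≤ n := by
    rw [hN]
    calc (2 : ℝ) ≤ 2 ^ 8 := by norm_num
      _ ≤ w ^ 8 := pow_le_pow_left₀ (by norm_num) hw2 8
  have hsq : √n = w ^ 4 := by
    rw [hN, show w ^ 8 = (w ^ 4) ^ 2 by ring, Real.sqrt_sq (by positivity)]
  have hnn : n * √n = w ^ 12 := by rw [hsq, hN]; ring
  have hn16 : n ^ 2 = w ^ 16 := by rw [hN]; ring
  set U := 1 / w ^ 12 with hU
  set V := 1 / w ^ 16 with hV
  have hU0 : 0 < U := by positivity
  have hV0 : 0 < V := by positivity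
  have hX0 : 0 < S + n := by linarith
  have hb1 : bd π l n (S + C) ≤ 1 / √n - π / 4 * U - 1 / (S + n) + (C + l) * V := by
    unfold bd
    have h1 := gap_lower n (by linarith)
    have h2 : 1 / (4 * (n * √n)) = 1 / 4 * U := by
      rw [hnn, hU]; ring
    rw [h2] at h1
    have h3 : π * (1 / 4 * U) ≤ π * (1 / √n - 1 / √(n + 1)) := by gcongr
    have h4 : 1 / (S + n) - 1 / (S + C + n) ≤ C * V := by
      have e : 1 / (S + n) - 1 / (S + C + n) = C / ((S + n) * (S + C + n)) := by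
        have : 0 < S + C + n := by linarith
        field_simp
        ring
      rw [e, hV, ← hn16, mul_one_div]
      apply div_le_div_of_nonneg_left hC.le (by positivity)
      rw [sq]
      apply mul_le_mul <;> linarith
    have h5 : l / n ^ 2 = l * V := by rw [hn16, hV]; ring
    rw [h5]
    linarith
  have hb2 : ∀ S' : ℝ, 1 ≤ S' → bd π l (n - 1) S' ≤
      1 / √n - 1 / (S' + n) + U + 4 * l * V := by
    intro S' hS'
    unfold bd
    rw [sub_add_cancel]
    have h1 := gap_upper n hn2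
    have h2 : 1 / (n * √n) = U := by rw [hnn]
    rw [h2] at h1
    have h0 : 0 ≤ 1 / √(n - 1) - 1 / √n := by
      have := second_nonneg (n - 1) (by linarith)
      rwa [sub_add_cancel] at this
    have h3 : (1 - π) * (1 / √(n - 1) - 1 / √n) ≤ U := by
      calc (1 - π) * (1 / √(n - 1) - 1 / √n) ≤ 1 * (1 / √(n - 1) - 1 / √n) := by
            gcongr
            linarith
        _ ≤ U := by linarith
    have h4 : 1 / (S' + n) ≤ 1 / (S' + (n - 1)) := by
      apply one_div_le_one_div_of_le <;> linarith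
    have h5 : l / (n - 1) ^ 2 ≤ 4 * l * V := by
      rw [hV, ← hn16, mul_one_div, div_le_div_iff₀ (by nlinarith) (by positivity)]
      have h6 : n ^ 2 ≤ 4 * (n - 1) ^ 2 := by nlinarith
      nlinarith
    linarith
  have h20 := hb2 (S + h) (by linarith)
  have h21 := hb2 (S - h) (by linarith)
  have e20 : S + h + n = S + n + h := by ring
  have e21 : S - h + n = S + n - h := by ring
  rw [e20] at h20
  rw [e21] at h21
  have hUV : (C + 5 * l) * V ≤ π / 8 * U := by
    rw [div_le_iff₀ hπ0] at hw4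
    have e : U = w ^ 4 * V := by
      rw [hU, hV]
      field_simp
    rw [e]
    nlinarith
  have hst' : (q0 + q1) * U + (q0 * (1 / (S + n) - 1 / (S + n + h)) +
      q1 * (1 / (S + n) - 1 / (S + n - h))) / 2 ≤ π / 8 * U := by
    have e1 : (q0 + q1) * U = (q0 + q1) / w ^ 12 := by rw [hU]; ring
    have e2 : π / 8 * U = π / 8 / w ^ 12 := by rw [hU]; ring
    rw [e1, e2]
    exact hst
  have k1 := mul_le_mul_of_nonneg_left h20 hq0n
  have k2 := mul_le_mul_of_nonneg_left h21 hq1n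
  have k3 := mul_le_mul_of_nonneg_left hb1 (sub_nonneg.2 hq01)
  have k4 := mul_le_mul_of_nonneg_left hb1 (sub_nonneg.2 hq11)
  have k5 : 0 ≤ q0 * U := by positivity
  have k6 : 0 ≤ q1 * U := by positivity
  have k7 : π * (q0 * U) ≤ q0 * U := by nlinarith
  have k8 : π * (q1 * U) ≤ q1 * U := by nlinarith
  have k9 : q0 * (l * V) ≤ l * V := by
    have : 0 ≤ l * V := by positivity
    nlinarith
  have k10 : q1 * (l * V) ≤ l * V := by
    have : 0 ≤ l * V := by positivity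
    nlinarith
  have k11 : 0 ≤ q0 * ((C + l) * V) := by positivity
  have k12 : 0 ≤ q1 * ((C + l) * V) := by positivity
  linarith


end

end Pool.Agent.Q296.Aloha
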